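import Pool.Agent.H94.EGC.S1

/-! # EGC CLT and CL1: the induction, and at most one place -/

set_option autoImplicit false

namespace Pool.EGC

open MvPolynomial Pool.EGH

theorem t_clt (h1 : CL1Stmt) (h2 : CL2Stmt) (h3 : CLSStmt) : CLTStmt := by
  intro m
  have key : ∀ k : ℕ, CLm (k + 2) := by
    intro k
    induction k with
    | zero => exact h2
    | succ k ih => exact h3 k ih
  match m with
  | 0 => exact h1.1
  | 1 => exact h1.2
  | k + 2 => exact key k

namespace CL1

theorem eq_of_sub {m : ℕ} {c : Fin m → Bool} {d : ℕ}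
    (hs : ∀ x y : Fin m → ℕ, x ∈ Mo c d → y ∈ Mo c d → x = y)
    (A B : Finset (Fin m → ℕ)) (hA : A ⊆ Mo c d) (hB : B ⊆ Mo c d) (h : B.card = A.card) :
    B = A := by
  by_cases he : A = ∅
  · subst he
    rw [Finset.card_empty, Finset.card_eq_zero] at h
    exact h
  · obtain ⟨a, ha⟩ := Finset.nonempty_iff_ne_empty.2 he
    have hA1 : A = {a} := by
      ext x
      rw [Finset.mem_singleton]
      exact ⟨fun hx => hs _ _ (hA hx) (hA ha), fun hx => hx ▸ ha⟩
    have hB0 : B.Nonempty := by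
      rw [← Finset.card_pos, h, Finset.card_pos]; exact ⟨a, ha⟩
    obtain ⟨b, hb⟩ := hB0
    have hB1 : B = {b} := by
      ext x
      rw [Finset.mem_singleton]
      exact ⟨fun hx => hs _ _ (hB hx) (hB hb), fun hx => hx ▸ hb⟩
    rw [hA1, hB1, hs _ _ (hB hb) (hA ha)]

end CL1

theorem t_cl1 (h : MOMStmt) : CL1Stmt := by
  constructor
  · intro c _ d A B hA hB hc
    rw [CL1.eq_of_sub (fun x y _ _ => funext fun i => i.elim0) A B hA hB.1 hc]
  · intro c _ d A B hA hB hc
    rw [CL1.eq_of_sub (fun x y hx hy => ?_) A B hA hB.1 hc]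
    have h1 := ((h 1 c d x).1.1 hx).1
    have h2 := ((h 1 c d y).1.1 hy).1
    rw [Fin.sum_univ_one] at h1 h2
    funext i
    rw [Subsingleton.elim i 0, h1, h2]

end Pool.EGC
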