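import Pool.Agent.H94.EGC.S1

/-! # EGC MOC: the number of squarefree vectors -/

set_option autoImplicit false

namespace Pool.EGC

open MvPolynomial Pool.EGH

theorem t_moc (h : MOMStmt) : MOCStmt := by
  intro r d
  classical
  have hc : r.choose d = (Finset.powersetCard d (Finset.univ : Finset (Fin r))).card := by
    rw [Finset.card_powersetCard, Finset.card_univ, Fintype.card_fin]
  rw [hc]
  refine Finset.card_bij (fun x _ => Finset.univ.filter (fun i => x i = 1)) ?_ ?_ ?_
  · intro x hx
    obtain ⟨h1, h2⟩ := (h r (cp r r) d x).1.1 hx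
    rw [Finset.mem_powersetCard]
    refine ⟨Finset.subset_univ _, ?_⟩
    have h3 : ∀ i, x i ≤ 1 := fun i => h2 i (by simp [cp])
    rw [Finset.card_filter, ← h1]
    refine Finset.sum_congr rfl fun i _ => ?_
    have := h3 i
    split_ifs with h4 <;> omega
  · intro x hx y hy hxy
    obtain ⟨_, h2⟩ := (h r (cp r r) d x).1.1 hx
    obtain ⟨_, h4⟩ := (h r (cp r r) d y).1.1 hy
    funext i
    have h5 := h2 i (by simp [cp])
    have h6 := h4 i (by simp [cp])
    have h7 : i ∈ Finset.univ.filter (fun i => x i = 1) ↔
        i ∈ Finset.univ.filter (fun i => y i = 1) := by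
      have : Finset.univ.filter (fun i => x i = 1) = Finset.univ.filter (fun i => y i = 1) := hxy
      rw [this]
    simp only [Finset.mem_filter, Finset.mem_univ, true_and] at h7
    omega
  · intro S hS
    rw [Finset.mem_powersetCard] at hS
    refine ⟨fun i => if i ∈ S then 1 else 0, ?_, ?_⟩
    · refine (h r (cp r r) d _).1.2 ⟨?_, fun i _ => ?_⟩
      · rw [Finset.sum_ite_mem, Finset.univ_inter, Finset.sum_const, smul_eq_mul, mul_one]
        exact hS.2
      · split_ifs <;> omega
    · ext i
      simp only [Finset.mem_filter, Finset.mem_univ, true_and]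
      by_cases hi : i ∈ S <;> simp [hi]

end Pool.EGC
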